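import Pool.Agent.MP_0a2729_al.Mg.Upper

set_option autoImplicit false

namespace Pool.Agent.Results.MP_0a2729_al.RatioHalf

open Pool.Agent.MP_0a2729_al

/-- For every positive `ε` there are an infinite group `G` and a finite symmetric generating set
`S` such that elements of arbitrarily large word length have retreat depth at least
`(1 / 2 - ε)` times their word length. -/
theorem result :
    ∀ ε : ℝ, 0 < ε → ∃ (G : Type) (_ : Group G) (S : Finset G), Infinite G ∧
      (∀ s ∈ S, s⁻¹ ∈ S) ∧ Subgroup.closure (S : Set G) = ⊤ ∧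
      ∀ n : ℕ, ∃ x : G, n ≤ wordLength S x ∧
        (1 / 2 - ε) * (wordLength S x : ℝ) ≤ (retreatDepth S x : ℝ) :=
  main

end Pool.Agent.Results.MP_0a2729_al.RatioHalf
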